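import Mathlib
import Pool.Agent.D0H48.BM.Mw

/-!
# Primes in the residue classes given by the rational approximations of almost every number

For almost every real number `α` the error term of the prime number theorem for the progression `a mod q`
satisfies, for all reduced fractions `a / q` near `α` (in particular for all the convergents), the bound of
Montgomery's conjecture up to a power of the logarithm and up to the term `x / (q √P)`, `P` the least prime
factor of `q`:
`|ψ(x, q, a) - ψ(x) / φ(q)| ≤ (√(x / q) + x / (q √P)) (log x) ^ (2c + 22)` for all `q ≤ x` and all `a` coprime to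
`q` with `|α - a / q| ≤ (log x) ^ c / q ^ 2`. If `P ≥ x / q` (for instance if `q ≥ √x` is a prime) this is
`2 √(x / q) (log x) ^ (2c + 22)`. Moreover the asymptotic formula holds for all `q` as soon as
`x ≥ q (log x) ^ (2 + c + δ)`: for every `ε > 0` and all large `x` the relative error is at most `ε`.

The generalized Riemann hypothesis gives the error `√x (log x) ^ 2` only, Montgomery's
conjecture (Q1) gives `√(x / q) x ^ ε` for all `q`, and the asymptotic formula is false for
`q = x / (log x) ^ A` for some `q` and `a` (Friedlander and Granville).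

Proof of the bound: chaining over dyadic intervals (for the maximum over `x`), the large sieve (starting files) for
the characters mod `q` sorted by conductors, every conductor of a nonprincipal character being at least `P`, and the
lemma of Borel and Cantelli. Proof of the asymptotic formula: the characters with small conductor by the theorem of
Siegel and Walfisz (starting files), for every `q` and `a`; the others by the large sieve (starting files) in the mean
square over all `q` and `a`, with the sharp bound `D X log X` (theorem of Barban, Davenport and Halberstam,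
`Pool.Agent.D0H48.MO.Ls`); the lemma of Borel and Cantelli at the points `x = exp(η j)`, and monotonicity in `x`.
-/

set_option autoImplicit false

open Finset Filter MeasureTheory

namespace Pool.Agent.Results.MP_848d44_nt.AlmostEveryFraction

/-- `ψ(x, q, a)`: the sum of `Λ(n)` over the `1 ≤ n ≤ x` with `n ≡ a (mod q)`; `a` is an integer -/
noncomputable def psi (x : ℝ) (q : ℕ) (a : ℤ) : ℝ :=
  ∑ n ∈ (Icc 1 ⌊x⌋₊).filter (fun n : ℕ => (n : ℤ) ≡ a [ZMOD q]), ArithmeticFunction.vonMangoldt n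

/-- the sum of `Λ(n)` over the `1 ≤ n ≤ x` -/
noncomputable def psiAll (x : ℝ) : ℝ := ∑ n ∈ Icc 1 ⌊x⌋₊, ArithmeticFunction.vonMangoldt n

/-- the asymptotic formula -/
theorem asymptotic : ∀ᵐ α : ℝ, ∀ c δ ε : ℝ, 0 ≤ c → 0 < δ → 0 < ε → ∃ x₀ : ℝ, ∀ x : ℝ, x₀ ≤ x →
    ∀ q : ℕ, 1 ≤ q → (q : ℝ) * Real.log x ^ (2 + c + δ) ≤ x →
      ∀ a : ℤ, IsCoprime a (q : ℤ) → |α - a / q| ≤ Real.log x ^ c / (q : ℝ) ^ 2 →
        |psi x q a - x / (Nat.totient q : ℝ)| ≤ ε * (x / (Nat.totient q : ℝ)) := by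
  have h : ∀ᵐ α : ℝ, ∀ c' : ℚ, ∀ n k : ℕ, 0 ≤ c' → ∃ x₀ : ℝ, ∀ x : ℝ, x₀ ≤ x →
      ∀ q : ℕ, 1 ≤ q → (q : ℝ) * Real.log x ^ (2 + (c' : ℝ) + 1 / ((n : ℝ) + 1)) ≤ x →
        ∀ a : ℤ, IsCoprime a (q : ℤ) → |α - a / q| ≤ Real.log x ^ (c' : ℝ) / (q : ℝ) ^ 2 →
          |Pool.Agent.D0H48.MO.psiZ x q a - x / (Nat.totient q : ℝ)| ≤
            1 / ((k : ℝ) + 1) * (x / (Nat.totient q : ℝ)) := by
    rw [ae_all_iff]
    intro c'
    rw [ae_all_iff]
    intro n
    rw [ae_all_iff]
    intro k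
    by_cases hc' : 0 ≤ c'
    · have h1 : (1 : ℝ) / ((k : ℝ) + 1) ≤ 1 := by
        rw [div_le_one (by positivity)]
        have : (0 : ℝ) ≤ k := Nat.cast_nonneg k
        linarith
      filter_upwards [Pool.Agent.D0H48.MO.main_ae (c := (c' : ℝ)) (δ := 1 / ((n : ℝ) + 1))
        (ε := 1 / ((k : ℝ) + 1)) (by exact_mod_cast hc') (by positivity) (by positivity) h1] with α hα _
      exact hα
    · exact Eventually.of_forall fun α h => absurd h hc'
  filter_upwards [h] with α hα c δ ε hc hδ hε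
  obtain ⟨c', hc1, hc2⟩ := exists_rat_btwn (show c < c + δ / 2 by linarith)
  obtain ⟨n, hn⟩ := exists_nat_one_div_lt (show 0 < δ / 2 by positivity)
  obtain ⟨k, hk⟩ := exists_nat_one_div_lt hε
  have hc0 : (0 : ℝ) ≤ c' := by linarith
  obtain ⟨x₀, hx₀⟩ := hα c' n k (by exact_mod_cast hc0)
  refine ⟨max x₀ 3, fun x hx q hq hqx a ha hα1 => ?_⟩
  have hx1 : x₀ ≤ x := (le_max_left _ _).trans hx
  have hx3 : 3 ≤ x := (le_max_right _ _).trans hx
  have hx0 : 0 < x := by linarith
  have hL1 : 1 ≤ Real.log x := by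
    rw [Real.le_log_iff_exp_le hx0]
    have := Real.exp_one_lt_d9
    linarith
  have hq0 : (0 : ℝ) < q := by exact_mod_cast (by omega : 0 < q)
  have hφ : (0 : ℝ) < Nat.totient q := by exact_mod_cast Nat.totient_pos.2 (by omega)
  have h1 : (q : ℝ) * Real.log x ^ (2 + (c' : ℝ) + 1 / ((n : ℝ) + 1)) ≤ x := by
    refine le_trans (mul_le_mul_of_nonneg_left ?_ hq0.le) hqx
    exact Real.rpow_le_rpow_of_exponent_le hL1 (by linarith)
  have h2 : |α - a / q| ≤ Real.log x ^ (c' : ℝ) / (q : ℝ) ^ 2 := by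
    refine hα1.trans (div_le_div_of_nonneg_right ?_ (by positivity))
    exact Real.rpow_le_rpow_of_exponent_le hL1 hc1.le
  refine (hx₀ x hx1 q hq h1 a ha h2).trans ?_
  exact mul_le_mul_of_nonneg_right hk.le (by positivity)

/-- **Theorem.** Almost every real number `α` (for the Lebesgue measure) has the following property. For
all real `c ≥ 0`, `δ > 0`, `ε > 0` there is `x₀` such that for all real `x ≥ x₀`, all integers `1 ≤ q ≤ x`
and all integers `a` coprime to `q` with `|α - a / q| ≤ (log x) ^ c / q ^ 2`,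
`|ψ(x, q, a) - ψ(x) / φ(q)| ≤ (√(x / q) + x / (q √P)) (log x) ^ (2c + 22)`, `P` the least prime factor of `q`, and,
if `q (log x) ^ (2 + c + δ) ≤ x`, also `|ψ(x, q, a) - x / φ(q)| ≤ ε x / φ(q)`. -/
theorem result : ∀ᵐ α : ℝ, ∀ c δ ε : ℝ, 0 ≤ c → 0 < δ → 0 < ε → ∃ x₀ : ℝ, ∀ x : ℝ, x₀ ≤ x →
    ∀ q : ℕ, 1 ≤ q → (q : ℝ) ≤ x →
      ∀ a : ℤ, IsCoprime a (q : ℤ) → |α - a / q| ≤ Real.log x ^ c / (q : ℝ) ^ 2 →
        |psi x q a - psiAll x / (Nat.totient q : ℝ)| ≤
            (√(x / q) + x / (q * √(q.minFac : ℝ))) * Real.log x ^ (2 * c + 22) ∧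
          ((q : ℝ) * Real.log x ^ (2 + c + δ) ≤ x →
            |psi x q a - x / (Nat.totient q : ℝ)| ≤ ε * (x / (Nat.totient q : ℝ))) := by
  have h : ∀ᵐ α : ℝ, ∀ B : ℕ, ∃ x₀ : ℝ, ∀ x : ℝ, x₀ ≤ x → ∀ q : ℕ, 1 ≤ q → (q : ℝ) ≤ x →
      ∀ a : ℤ, IsCoprime a (q : ℤ) → |α - a / q| ≤ Real.log x ^ B / (q : ℝ) ^ 2 →
        |psi x q a - psiAll x / (Nat.totient q : ℝ)| ≤
          (√(x / q) + x / (q * √(q.minFac : ℝ))) * Real.log x ^ (2 * B + 20) := by
    rw [ae_all_iff]
    intro B
    exact Pool.Agent.D0H48.BM.main_pairs B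
  filter_upwards [asymptotic, h] with α hα hβ c δ ε hc hδ hε
  obtain ⟨x₁, hx₁⟩ := hα c δ ε hc hδ hε
  obtain ⟨x₂, hx₂⟩ := hβ ⌈c⌉₊
  refine ⟨max x₁ (max x₂ 3), fun x hx q hq hqx a ha hα1 => ⟨?_, fun hq2 => ?_⟩⟩
  · have hx2 : x₂ ≤ x := (le_max_left _ _).trans ((le_max_right _ _).trans hx)
    have hx3 : 3 ≤ x := (le_max_right _ _).trans ((le_max_right _ _).trans hx)
    have hx0 : 0 < x := by linarith
    have hL1 : 1 ≤ Real.log x := by
      rw [Real.le_log_iff_exp_le hx0]
      have := Real.exp_one_lt_d9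
      linarith
    have hq0 : (0 : ℝ) < q := by exact_mod_cast (by omega : 0 < q)
    have hc1 : c ≤ (⌈c⌉₊ : ℝ) := Nat.le_ceil c
    have hc2 : (⌈c⌉₊ : ℝ) < c + 1 := Nat.ceil_lt_add_one hc
    have h2 : |α - a / q| ≤ Real.log x ^ ⌈c⌉₊ / (q : ℝ) ^ 2 := by
      refine hα1.trans (div_le_div_of_nonneg_right ?_ (by positivity))
      rw [← Real.rpow_natCast]
      exact Real.rpow_le_rpow_of_exponent_le hL1 hc1
    refine (hx₂ x hx2 q hq hqx a ha h2).trans ?_
    apply mul_le_mul_of_nonneg_left _ (by positivity)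
    rw [← Real.rpow_natCast]
    apply Real.rpow_le_rpow_of_exponent_le hL1
    push_cast
    linarith
  · exact hx₁ x ((le_max_left _ _).trans hx) q hq hq2 a ha hα1

end Pool.Agent.Results.MP_848d44_nt.AlmostEveryFraction
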