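import Pool.Agent.D0H44.EM.Main
import Pool.Agent.D0H52.EM.Nrm
import Pool.Agent.D0H52.EM.Dua

/-! Unconditional lower bounds for the error term in the prime number theorem in arithmetic
progressions, for EVERY modulus `q ≤ X ^ (1 - ε)`. -/

open Finset MeasureTheory

namespace Pool.Agent.Results.MP_848d44_nt.EveryModulus

/-- `ψ(x, q, a)`: the sum of `Λ(n)` over `n ≤ x`, `n ≡ a (mod q)` -/
noncomputable def psi (x : ℝ) (q a : ℕ) : ℝ :=
  ∑ n ∈ (Icc 1 ⌊x⌋₊).filter (fun n => n ≡ a [MOD q]), ArithmeticFunction.vonMangoldt n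

/-- the reduced residue classes modulo `q` -/
def reduced (q : ℕ) : Finset ℕ := (range q).filter (fun a => a.Coprime q)

/-- For every `ε > 0` there is `X₀` such that for all real `X ≥ X₀` and ALL moduli
`1 ≤ q ≤ X ^ (1 - ε)`:

(i) the mean square of `ψ(u, q, a) - u / φ(q)` over `u ∈ [X, 2 X]` and the reduced classes `a`
modulo `q` is at least `X ^ (-ε) min (X / q) (X ^ (1 / 3))`;

(ii) there are `u ∈ [X, 2 X]` and a reduced class `a` with
`|ψ(u, q, a) - u / φ(q)| ≥ X ^ (-ε) min (√(X / q)) (X ^ (1 / 6))`. -/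
theorem result : ∀ ε : ℝ, 0 < ε → ∃ X₀ : ℝ, ∀ X : ℝ, X₀ ≤ X → ∀ q : ℕ, 1 ≤ q →
    (q : ℝ) ≤ X ^ (1 - ε) →
    (X ^ (-ε) * min (X / q) (X ^ (1 / 3 : ℝ)) ≤ 1 / X * (1 / (Nat.totient q : ℝ) *
      ∑ a ∈ reduced q, ∫ u in X..(2 * X), (psi u q a - u / (Nat.totient q : ℝ)) ^ 2)) ∧
    ∃ u ∈ Set.Icc X (2 * X), ∃ a ∈ reduced q,
      X ^ (-ε) * min (Real.sqrt (X / q)) (X ^ (1 / 6 : ℝ)) ≤
        |psi u q a - u / (Nat.totient q : ℝ)| := by
  intro ε hε
  obtain ⟨X₀, hX₀, h⟩ := D0H44.EM.mean_sq (D0H52.EM.dua D0H52.EM.nrm) ε hε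
  refine ⟨X₀, fun X hX q hq hqX => ?_⟩
  have hX2 : 2 ≤ X := hX₀.trans hX
  have hX0 : 0 < X := by linarith
  have h1 := h X hX q hq hqX
  have hV : ∀ a, ∫ u in X..(2 * X), (psi u q a - u / (Nat.totient q : ℝ)) ^ 2 =
      ∫ x in X..(2 * X), D0H44.EM.Er q a x ^ 2 := fun a => rfl
  have hred : reduced q = D0H44.EM.red q := rfl
  have hq0 : (0 : ℝ) < q := by exact_mod_cast hq
  have hφ : (0 : ℝ) < Nat.totient q := by exact_mod_cast Nat.totient_pos.2 hq
  set c := X ^ (-ε) * min (X / q) (X ^ (1 / 3 : ℝ)) with hc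
  have hc0 : 0 < c := by
    rw [hc]
    positivity
  refine ⟨?_, ?_⟩
  · rw [hred]
    simp_rw [hV]
    linarith
  · by_contra hcon
    push Not at hcon
    have hB : ∀ a ∈ D0H44.EM.red q, ∫ x in X..(2 * X), D0H44.EM.Er q a x ^ 2 ≤ c * X := by
      intro a ha
      have h2 : ‖∫ x in X..(2 * X), D0H44.EM.Er q a x ^ 2‖ ≤ c * |2 * X - X| := by
        apply intervalIntegral.norm_integral_le_of_norm_le_const
        intro x hx
        rw [Set.uIoc_of_le (by linarith)] at hx
        have h3 := (hcon x ⟨hx.1.le, hx.2⟩ a (by rw [hred]; exact ha)).le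
        rw [Real.norm_eq_abs, abs_pow]
        have h4 : |D0H44.EM.Er q a x| ≤ X ^ (-ε) * min (Real.sqrt (X / q)) (X ^ (1 / 6 : ℝ)) := h3
        have h5 : (X ^ (-ε) * min (Real.sqrt (X / q)) (X ^ (1 / 6 : ℝ))) ^ 2 ≤ c := by
          have hm0 : 0 ≤ min (Real.sqrt (X / q)) (X ^ (1 / 6 : ℝ)) := by positivity
          have hm : min (Real.sqrt (X / q)) (X ^ (1 / 6 : ℝ)) ^ 2 ≤
              min (X / q) (X ^ (1 / 3 : ℝ)) := by
            apply le_min
            · calc min (Real.sqrt (X / q)) (X ^ (1 / 6 : ℝ)) ^ 2 ≤ Real.sqrt (X / q) ^ 2 := by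
                    gcongr
                    exact min_le_left _ _
                _ = X / q := Real.sq_sqrt (by positivity)
            · calc min (Real.sqrt (X / q)) (X ^ (1 / 6 : ℝ)) ^ 2 ≤ (X ^ (1 / 6 : ℝ)) ^ 2 := by
                    gcongr
                    exact min_le_right _ _
                _ = X ^ (1 / 3 : ℝ) := by
                    rw [← Real.rpow_natCast, ← Real.rpow_mul hX0.le]
                    norm_num
          have he : (X ^ (-ε)) ^ 2 ≤ X ^ (-ε) := by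
            have h6 : X ^ (-ε) ≤ 1 := Real.rpow_le_one_of_one_le_of_nonpos (by linarith) (by linarith)
            have h7 : 0 ≤ X ^ (-ε) := by positivity
            nlinarith
          rw [mul_pow, hc]
          apply mul_le_mul he hm (by positivity) (by positivity)
        calc |D0H44.EM.Er q a x| ^ 2 ≤
            (X ^ (-ε) * min (Real.sqrt (X / q)) (X ^ (1 / 6 : ℝ))) ^ 2 := by gcongr
          _ ≤ c := h5
      have h8 : |2 * X - X| = X := by
        rw [show 2 * X - X = X by ring, abs_of_pos hX0]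
      rw [h8] at h2
      exact (le_abs_self _).trans h2
    have hcard : ((D0H44.EM.red q).card : ℝ) = Nat.totient q := by
      have : (D0H44.EM.red q).card = Nat.totient q := by
        rw [Nat.totient_eq_card_coprime]
        unfold D0H44.EM.red
        congr 1
        ext a
        simp only [mem_filter, Nat.coprime_comm]
      rw [this]
    have hS : ∑ a ∈ D0H44.EM.red q, ∫ x in X..(2 * X), D0H44.EM.Er q a x ^ 2 ≤
        Nat.totient q * (c * X) := by
      rw [← hcard, ← nsmul_eq_mul, ← sum_const]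
      exact sum_le_sum hB
    have h9 : 1 / X * (1 / (Nat.totient q : ℝ) *
        ∑ a ∈ D0H44.EM.red q, ∫ x in X..(2 * X), D0H44.EM.Er q a x ^ 2) ≤ c := by
      calc _ ≤ 1 / X * (1 / (Nat.totient q : ℝ) * (Nat.totient q * (c * X))) := by gcongr
        _ = c := by field_simp
    linarith

end Pool.Agent.Results.MP_848d44_nt.EveryModulus
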