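import Pool.Agent.D0H44.EC.ThB
import Pool.Agent.D0H12.EC.Cg
import Pool.Agent.D0H12.EC.Du
import Pool.Agent.D0H13.EC.Ena
import Pool.Agent.D0H42.EC.OI
import Pool.Agent.D0H42.EC.PD
import Pool.Agent.D0H42.EC.PH
import Pool.Agent.D0H51.FR.IB
import Pool.Agent.D0H81.FR.WT
import Pool.Agent.D0H81.EC.LSA
import Pool.Agent.D0H81.EC.BLA
import Pool.Agent.D0H86.EC.Pva
import Pool.Agent.D0H86.EC.Spa
import Pool.Agent.D0H86.EC.Psa

/-! Unconditional lower bounds for the error term in the prime number theorem in arithmetic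
progressions for EVERY modulus `q ≤ x ^ (1/3 - ε)` and EVERY reduced class. -/

open Finset MeasureTheory

namespace Pool.Agent.Results.MP_848d44_nt.EveryModulusEveryClass

/-- `ψ(x, q, a)`: the sum of `Λ(n)` over `n ≤ x`, `n ≡ a (mod q)` -/
noncomputable def psi (x : ℝ) (q a : ℕ) : ℝ :=
  ∑ n ∈ (Icc 1 ⌊x⌋₊).filter (fun n => n ≡ a [MOD q]), ArithmeticFunction.vonMangoldt n

/-- For every `ε > 0` there is `x₀` such that for all real `x ≥ x₀`, ALL moduli
`1 ≤ q ≤ x ^ (1/3 - ε)` and ALL integers `a` coprime to `q`: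

(i) the mean square of `ψ(u, q, a) - u / φ(q)` over `u ∈ [x, 2 x]` is at least
`x ^ (1/3 - ε) / q`;

(ii) there is `u ∈ [x, 2 x]` with `|ψ(u, q, a) - u / φ(q)| ≥ x ^ (1/6 - ε) / √q`. -/
theorem result : ∀ ε : ℝ, 0 < ε → ∃ x₀ : ℝ, ∀ x : ℝ, x₀ ≤ x → ∀ q : ℕ, 1 ≤ q →
    (q : ℝ) ≤ x ^ (1 / 3 - ε) → ∀ a : ℕ, a.Coprime q →
    (x ^ (1 / 3 - ε) / q ≤
      1 / x * ∫ u in x..(2 * x), (psi u q a - u / (Nat.totient q : ℝ)) ^ 2) ∧
    ∃ u ∈ Set.Icc x (2 * x), x ^ (1 / 6 - ε) / Real.sqrt q ≤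
      |psi u q a - u / (Nat.totient q : ℝ)| := by
  intro ε hε
  have hW := Pool.Agent.D0H81.FR.t_W
  obtain ⟨x₀, hx₀, h⟩ := D0H44.EC.mainB (Pool.Agent.D0H42.EC.t_PD hW)
    (Pool.Agent.D0H42.EC.t_OI hW) Pool.Agent.D0H42.EC.t_PH (Pool.Agent.D0H12.EC.t_CG hW)
    (Pool.Agent.D0H12.EC.t_DU hW) (Pool.Agent.D0H51.FR.t_IB hW) (Pool.Agent.D0H51.FR.t_CS hW)
    (Pool.Agent.D0H86.EC.t_PSA hW) (Pool.Agent.D0H13.EC.t_ENA Pool.Agent.D0H86.EC.t_PVA
      (Pool.Agent.D0H81.EC.t_BLA Pool.Agent.D0H81.EC.t_LSA) Pool.Agent.D0H86.EC.t_SPA) ε hε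
  refine ⟨x₀, fun x hx q hq hqx a ha => ?_⟩
  have hx100 : 100 ≤ x := hx₀.trans hx
  have hx0 : 0 < x := by linarith
  have hq0 : (1 : ℝ) ≤ q := by exact_mod_cast hq
  have hqpos : (0 : ℝ) < q := by linarith
  have hV : ∫ u in x..(2 * x), (psi u q a - u / (Nat.totient q : ℝ)) ^ 2 =
      ∫ u in x..(2 * x), D0H44.EM.Er q a u ^ 2 := rfl
  have h1 := h x hx q hq hqx a ha
  rw [hV]
  set V := ∫ u in x..(2 * x), D0H44.EM.Er q a u ^ 2 with hVd
  set c := x ^ (1 / 3 - ε) / q with hc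
  have hc0 : 0 < c := by rw [hc]; positivity
  refine ⟨?_, ?_⟩
  · rw [div_mul_eq_mul_div, one_mul, le_div_iff₀ hx0]
    have : 0 < c * x := by positivity
    linarith
  · by_contra hcon
    push Not at hcon
    have h2 : ‖V‖ ≤ c * |2 * x - x| := by
      rw [hVd]
      apply intervalIntegral.norm_integral_le_of_norm_le_const
      intro u hu
      rw [Set.uIoc_of_le (by linarith)] at hu
      have h3 : |D0H44.EM.Er q a u| ≤ x ^ (1 / 6 - ε) / Real.sqrt q :=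
        (hcon u ⟨hu.1.le, hu.2⟩).le
      rw [Real.norm_eq_abs, abs_pow]
      calc |D0H44.EM.Er q a u| ^ 2 ≤ (x ^ (1 / 6 - ε) / Real.sqrt q) ^ 2 := by gcongr
        _ = x ^ (1 / 3 - 2 * ε) / q := by
            rw [div_pow, Real.sq_sqrt hqpos.le]
            congr 1
            rw [← Real.rpow_natCast, ← Real.rpow_mul hx0.le]
            congr 1
            push_cast
            ring
        _ ≤ c := by
            rw [hc]
            gcongr
            · linarith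
            · linarith
    have h8 : |2 * x - x| = x := by
      rw [show 2 * x - x = x by ring, abs_of_pos hx0]
    rw [h8] at h2
    have h9 := (le_abs_self V).trans h2
    have : 0 < c * x := by positivity
    linarith

end Pool.Agent.Results.MP_848d44_nt.EveryModulusEveryClass
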