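import Pool.Agent.D0H44.FR.Main

/-! Unconditional lower bounds of square root size for the error term in the prime number theorem
in arithmetic progressions with a FIXED residue: for every residue `a ≤ x / 100` and every `Q`
with `x ^ (5/6 + ε) ≤ Q ≤ x ^ (1 - ε)` some (and on average all) moduli `q ∈ (Q, 2 Q]`. -/

open Finset MeasureTheory

namespace Pool.Agent.Results.MP_848d44_nt.FixedResidue

/-- `ψ(x, q, a)`: the sum of `Λ(n)` over `n ≤ x`, `n ≡ a (mod q)` -/
noncomputable def psi (x : ℝ) (q a : ℕ) : ℝ :=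
  ∑ n ∈ (Icc 1 ⌊x⌋₊).filter (fun n => n ≡ a [MOD q]), ArithmeticFunction.vonMangoldt n

/-- For every `ε > 0` there is `x₀` such that for all real `x ≥ x₀`, all integers `Q` with
`x ^ (5/6 + ε) ≤ Q ≤ x ^ (1 - ε)` and ALL integers `a` with `1 ≤ a ≤ x / 100`:

(i) the mean square of `ψ(u, q, a) - u / φ(q)`, with this one residue `a`, over `u ∈ [x, 2 x]` and
the moduli `q ∈ (Q, 2 Q]` coprime to `a` is at least `10 ^ (-13) (x / Q) / (log x) ^ 2`;

(ii) there are a modulus `q ∈ (Q, 2 Q]` coprime to `a` and `u ∈ [x, 2 x]` with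
`|ψ(u, q, a) - u / φ(q)| ≥ 10 ^ (-7) √(u / q) / log u`. -/
theorem result : ∀ ε : ℝ, 0 < ε → ∃ x₀ : ℝ, ∀ x : ℝ, x₀ ≤ x → ∀ Q : ℕ,
    x ^ (5 / 6 + ε) ≤ Q → (Q : ℝ) ≤ x ^ (1 - ε) → ∀ a : ℕ, 1 ≤ a → (a : ℝ) ≤ x / 100 →
    (1 / 10 ^ 13 * (x / Q) / Real.log x ^ 2 ≤
      1 / (Q * x) * ∑ q ∈ (Ioc Q (2 * Q)).filter (fun q => q.Coprime a),
        ∫ u in x..(2 * x), (psi u q a - u / (Nat.totient q : ℝ)) ^ 2) ∧
    ∃ q : ℕ, Q < q ∧ q ≤ 2 * Q ∧ q.Coprime a ∧ ∃ u ∈ Set.Icc x (2 * x),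
      1 / 10 ^ 7 * Real.sqrt (u / q) / Real.log u ≤ |psi u q a - u / (Nat.totient q : ℝ)| := by
  intro ε hε
  obtain ⟨x₀, hx₀, h⟩ := D0H44.FR.variance ε hε
  refine ⟨x₀, fun x hx Q hQ1 hQ2 a ha hax => ?_⟩
  have hx3 : 3 ≤ x := hx₀.trans hx
  have hx0 : 0 < x := by linarith
  have hQ0 : (1 : ℝ) ≤ Q := (Real.one_le_rpow (by linarith) (by positivity)).trans hQ1
  have hQpos : (0 : ℝ) < Q := by linarith
  have hlog : 0 < Real.log x := Real.log_pos (by linarith)
  have h1 := h x hx Q hQ1 hQ2 a ha hax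
  set S := (Ioc Q (2 * Q)).filter (fun q => q.Coprime a) with hS
  have hE : ∀ q : ℕ, ∫ u in x..(2 * x), (psi u q a - u / (Nat.totient q : ℝ)) ^ 2 =
      ∫ u in x..(2 * x), D0H44.EM.Er q a u ^ 2 := fun q => rfl
  simp_rw [hE]
  set V := ∑ q ∈ S, ∫ u in x..(2 * x), D0H44.EM.Er q a u ^ 2 with hV
  refine ⟨?_, ?_⟩
  · have e1 : 1 / 10 ^ 13 * (x / Q) / Real.log x ^ 2 =
        1 / (Q * x) * (x ^ 2 / (10 ^ 13 * Real.log x ^ 2)) := by
      field_simp
    rw [e1]
    apply mul_le_mul_of_nonneg_left _ (by positivity)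
    rw [div_le_iff₀ (by positivity)]
    linarith
  · by_contra hcon
    push Not at hcon
    have hB : ∀ q ∈ S, ∫ u in x..(2 * x), D0H44.EM.Er q a u ^ 2 ≤
        (2 / 10 ^ 14 * (x / Q) / Real.log x ^ 2) * x := by
      intro q hq
      rw [hS, mem_filter, mem_Ioc] at hq
      have hqQ : (Q : ℝ) ≤ q := by exact_mod_cast hq.1.1.le
      have h2 : ‖∫ u in x..(2 * x), D0H44.EM.Er q a u ^ 2‖ ≤
          (2 / 10 ^ 14 * (x / Q) / Real.log x ^ 2) * |2 * x - x| := by
        apply intervalIntegral.norm_integral_le_of_norm_le_const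
        intro u hu
        rw [Set.uIoc_of_le (by linarith)] at hu
        have h3 := (hcon q hq.1.1 hq.1.2 hq.2 u ⟨hu.1.le, hu.2⟩).le
        rw [Real.norm_eq_abs, abs_pow]
        have h4 : |D0H44.EM.Er q a u| ≤ 1 / 10 ^ 7 * Real.sqrt (u / q) / Real.log u := h3
        have hu0 : 0 < u := by linarith [hu.1]
        have hlu : Real.log x ≤ Real.log u := Real.log_le_log hx0 hu.1.le
        calc |D0H44.EM.Er q a u| ^ 2 ≤ (1 / 10 ^ 7 * Real.sqrt (u / q) / Real.log u) ^ 2 := by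
              gcongr
          _ ≤ (1 / 10 ^ 7 * Real.sqrt (2 * x / Q) / Real.log x) ^ 2 := by
              have hlu0 : 0 < Real.log u := by linarith
              gcongr
              exact hu.2
          _ = 1 / 10 ^ 14 * Real.sqrt (2 * x / Q) ^ 2 / Real.log x ^ 2 := by
              ring
          _ = 2 / 10 ^ 14 * (x / Q) / Real.log x ^ 2 := by
              rw [Real.sq_sqrt (by positivity)]
              ring
      have h8 : |2 * x - x| = x := by
        rw [show 2 * x - x = x by ring, abs_of_pos hx0]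
      rw [h8] at h2
      exact (le_abs_self _).trans h2
    have hcard : (S.card : ℝ) ≤ Q := by
      have : S.card ≤ Q := by
        refine (card_le_card (filter_subset _ _)).trans ?_
        rw [Nat.card_Ioc]
        omega
      exact_mod_cast this
    have hVle : V ≤ Q * ((2 / 10 ^ 14 * (x / Q) / Real.log x ^ 2) * x) := by
      calc V ≤ ∑ _q ∈ S, (2 / 10 ^ 14 * (x / Q) / Real.log x ^ 2) * x := sum_le_sum hB
        _ = S.card * ((2 / 10 ^ 14 * (x / Q) / Real.log x ^ 2) * x) := by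
            rw [sum_const, nsmul_eq_mul]
        _ ≤ _ := by gcongr
    have e2 : (Q : ℝ) * ((2 / 10 ^ 14 * (x / Q) / Real.log x ^ 2) * x) =
        2 / 10 ^ 14 * x ^ 2 / Real.log x ^ 2 := by
      field_simp
    rw [e2, le_div_iff₀ (by positivity)] at hVle
    have hx2 : 0 < x ^ 2 := by positivity
    nlinarith

end Pool.Agent.Results.MP_848d44_nt.FixedResidue
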